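import Pool.Agent.Helper25.Defs
import Pool.Agent.Helper25.TypeA

/-!
Type A: approximability by the group generated by the homeomorphisms changing one coordinate is a
local property.
-/

namespace Pool.Agent.Results.MP_0907b2_gt.LocalCriterion

open Pool.Agent.Helper25 Topology

theorem result (n : ℕ) (h : EuclideanSpace ℝ (Fin n) ≃ₜ EuclideanSpace ℝ (Fin n)) :
    ApproximableBy (groupA n : Set (EuclideanSpace ℝ (Fin n) ≃ₜ EuclideanSpace ℝ (Fin n))) h ↔
      ∀ x : EuclideanSpace ℝ (Fin n), ∃ U ∈ 𝓝 x, ∀ ε : ℝ, 0 < ε →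
        ∃ g ∈ groupA n, ∀ p ∈ U, dist (g p) (h p) < ε := by
  constructor
  · intro hh x
    exact ⟨Metric.ball x 1, Metric.ball_mem_nhds x one_pos, hh _ Metric.isBounded_ball⟩
  · intro hh
    exact approximable_of_local (containsSmall_groupA n) hh

end Pool.Agent.Results.MP_0907b2_gt.LocalCriterion
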