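import Pool.Agent.Helper25.Defs
import Pool.Agent.Helper25.TypeB2
import Pool.Agent.Helper25.Smooth

/-!
Type B: every homeomorphism of `E^3` which is a limit of piecewise linear homeomorphisms is
approximable by the group generated by the homeomorphisms
`(x, y, z) ↦ (f (y, z), g (x, z), k (x, y))`.
-/

namespace Pool.Agent.Results.MP_0907b2_gt.TypeBClosure

open Pool.Agent.Helper25

theorem result (h : EuclideanSpace ℝ (Fin 3) ≃ₜ EuclideanSpace ℝ (Fin 3))
    (hh : ApproximableBy {g | IsPiecewiseLinear g} h) :
    ApproximableBy (groupB : Set (EuclideanSpace ℝ (Fin 3) ≃ₜ EuclideanSpace ℝ (Fin 3))) h := by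
  have h1 : Approximable (groupA 3) h :=
    approximable_trans (G := plGroup (EuclideanSpace ℝ (Fin 3))) (G' := groupA 3)
      (fun g hg => (piecewiseLinear_approximable hg).mono (stdGroup_le_groupA 3)) hh
  exact approximable_groupB_of_groupA h1

end Pool.Agent.Results.MP_0907b2_gt.TypeBClosure
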